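import Pool.Agent.Helper68.KPR.St

/-!
# Project KP, chapter A part R, module RFI: the algebra `R^(d)` is finite over `ℂ[a]`
-/

set_option autoImplicit false

namespace Pool.Agent.Helper9.KPR

open Pool.Agent.Helper52.KP Pool.Agent.Helper5.KPA Pool.Agent.Helper68.KPR MvPolynomial

theorem hRFI (hRSD : StRSD) (hAGR : StAGR) : StRFI := by
  intro C hC r F hF a hN a' ha'
  obtain ⟨-, -, htop, -, -⟩ := hRSD C hC r F hF
  obtain ⟨-, hG, -, -⟩ := hAGR C hC r F hF
  have hval : ∀ p : MvPolynomial (Fin C.m) ℂ,
      ((aeval a' p : DA C r) : MvPolynomial (Fin C.m) ℂ) = aeval a p := by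
    intro p
    have h1 : (DA C r).val.comp (aeval a') = aeval a := by
      apply algHom_ext
      intro j
      rw [AlgHom.comp_apply, aeval_X, aeval_X]
      exact ha' j
    exact DFunLike.congr_fun h1 p
  refine ⟨fun p q hpq => hN.ai ?_, ?_⟩
  · rw [← hval, ← hval, hpq]
  · set f : MvPolynomial (Fin C.m) ℂ →+* DA C r :=
      ((aeval a' : MvPolynomial (Fin C.m) ℂ →ₐ[ℂ] DA C r) :
        MvPolynomial (Fin C.m) ℂ →+* DA C r) with hf
    let _ : Algebra (MvPolynomial (Fin C.m) ℂ) (DA C r) := f.toAlgebra
    have hsm : ∀ (p : MvPolynomial (Fin C.m) ℂ) (x : DA C r), p • x = f p * x := fun p x => rfl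
    have _ : IsScalarTower ℂ (MvPolynomial (Fin C.m) ℂ) (DA C r) := by
      refine ⟨fun c p x => ?_⟩
      rw [hsm, hsm, hf]
      show aeval a' (c • p) * x = c • (aeval a' p * x)
      rw [map_smul, smul_mul_assoc]
    show Module.Finite (MvPolynomial (Fin C.m) ℂ) (DA C r)
    -- finite generating sets of the graded pieces
    have hfg : ∀ k, (DG C r k).FG := by
      intro k
      have := hG.fd k
      have _ : FiniteDimensional ℂ ((DG C r k).map (DA C r).val.toLinearMap) :=
        Submodule.finiteDimensional_of_le (Submodule.map_comap_le _ _)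
      exact Submodule.fg_of_fg_map_injective (DA C r).val.toLinearMap Subtype.val_injective
        (Module.Finite.iff_fg.1 inferInstance)
    obtain ⟨N, hNg⟩ := hN.fg
    let M : ℕ → Submodule (MvPolynomial (Fin C.m) ℂ) (DA C r) := fun k =>
      Submodule.span (MvPolynomial (Fin C.m) ℂ) (DG C r k : Set (DA C r))
    have hM : ∀ k, (M k).FG := by
      intro k
      obtain ⟨s, hs⟩ := hfg k
      refine ⟨s, ?_⟩
      show _ = Submodule.span (MvPolynomial (Fin C.m) ℂ) (DG C r k : Set (DA C r))
      rw [← hs, Submodule.span_span_of_tower]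
    let T : Submodule (MvPolynomial (Fin C.m) ℂ) (DA C r) := ⨆ k : Fin (N + 1), M k
    have hT : T.FG := Submodule.fg_iSup _ fun k => hM k
    have hle : ∀ k, ∀ x ∈ DG C r k, x ∈ T := by
      intro k
      induction k with
      | zero =>
        intro x hx
        exact Submodule.mem_iSup_of_mem (p := fun k : Fin (N + 1) => M k) 0
          (Submodule.subset_span hx)
      | succ k ih =>
        intro x hx
        by_cases hk : N ≤ k
        · obtain ⟨y, hy, hxy⟩ := hNg k hk x hx
          have hyD : ∀ i, y i ∈ DA C r := fun i =>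
            Algebra.subset_adjoin (Set.mem_iUnion.2 ⟨k, hy i⟩)
          have h1 : x = ∑ i, (X i : MvPolynomial (Fin C.m) ℂ) • (⟨y i, hyD i⟩ : DA C r) := by
            apply Subtype.ext
            rw [hxy]
            have h2 : ((∑ i, (X i : MvPolynomial (Fin C.m) ℂ) • (⟨y i, hyD i⟩ : DA C r) : DA C r) :
                MvPolynomial (Fin C.m) ℂ) =
                ∑ i, (((X i : MvPolynomial (Fin C.m) ℂ) • (⟨y i, hyD i⟩ : DA C r) : DA C r) :
                  MvPolynomial (Fin C.m) ℂ) :=
              map_sum (DA C r).val _ _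
            rw [h2]
            refine Finset.sum_congr rfl fun i _ => ?_
            rw [hsm]
            show a i * y i = ((aeval a' (X i) : DA C r) : MvPolynomial (Fin C.m) ℂ) * y i
            rw [hval, aeval_X]
          rw [h1]
          exact Submodule.sum_mem _ fun i _ => Submodule.smul_mem _ _ (ih _ (hy i))
        · exact Submodule.mem_iSup_of_mem (p := fun k : Fin (N + 1) => M k)
            ⟨k + 1, by omega⟩ (Submodule.subset_span hx)
    have hTtop : T = ⊤ := by
      rw [eq_top_iff]
      intro x _
      have hx : x ∈ ⨆ k, DG C r k := by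
        rw [htop]
        trivial
      refine Submodule.iSup_induction (DG C r) (motive := fun x => x ∈ T) hx hle
        (Submodule.zero_mem _) fun y z hy hz => Submodule.add_mem _ hy hz
    exact ⟨hTtop ▸ hT⟩

end Pool.Agent.Helper9.KPR
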